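import Pool.Agent.Run7.h661.U.Main2

/-!
# A collapsing region with issuing curves whose curvature is not locally bounded
-/

open Set Filter Topology
open scoped ContDiff

namespace Pool.Agent.Results.MP_c8f971_gt.UnboundedCurvature

open Run7.h661z Run7.h661u

/-- There is a curvature flow of regular networks (eleven curves) in a disc around `0`, smooth up to
the initial time, with a singular time `T`, and a region `U t` of the network, bounded by the `bar`,
the two upper `short` curves and the upper `cap`, which collapses to the point `0` as `t → T` (area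
and lengths of the curves bounding it tend to `0`), such that the two upper `arm`s, which issue from
junctions on the boundary of the region and do not collapse (they end at fixed points on the circle
`|z| = r`), have unbounded curvature near the collapse point: for all `δ > 0` and `K` there are times
`t < T` arbitrarily close to `T` and points of the arm at distance less than `δ` from `0` at which
the modulus of the curvature is larger than `K`. -/
theorem result : ∃ (r T : ℝ) (γ : Arc → ℝ → ℝ → ℂ) (U : ℝ → Set ℂ), 0 < r ∧ 0 < T ∧
    IsNetworkFlow (Metric.ball (0:ℂ) r) T γ ∧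
    (∀ i, ContDiffOn ℝ ∞ (fun q : ℝ × ℝ => γ i q.1 q.2) (Ico 0 T ×ˢ Icc 0 1)) ∧
    IsSingularTime (Metric.ball (0:ℂ) r) T γ ∧
    Collapses T γ U {.bar, .short true true, .short false true, .cap true} 0 ∧
    ∀ σ : Bool, (∀ t ∈ Ico 0 T, γ (.arm σ true) t 0 ∈ frontier (U t) ∧
        ‖γ (.arm σ true) t 1‖ = r) ∧
      ∀ δ > 0, ∀ K : ℝ, ∃ᶠ t in 𝓝[<] T, ∃ p ∈ Icc (0:ℝ) 1, ‖γ (.arm σ true) t p‖ < δ ∧
        K < |curv (γ (.arm σ true) t) p| :=
  Run7.h661u.main

end Pool.Agent.Results.MP_c8f971_gt.UnboundedCurvature
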